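import Mathlib

/-!
# A quasigroup of order 17 satisfying `(x y) y = x (x y)`

The model is cyclic: on the integers modulo 17 put `x y = x + f (y - x)`, where `f` is the
permutation with `f 0, f 1, ..., f 16 = 0, 11, 5, 4, 10, 1, 8, 15, 3, 14, 2, 9, 16, 7, 13, 12, 6`.
-/

set_option autoImplicit false
set_option maxRecDepth 100000

namespace Pool.Agent.Results.MP_ab03e0_co.OrderSeventeen

/-- the permutation `f` -/
def f : Fin 17 → Fin 17 := ![0, 11, 5, 4, 10, 1, 8, 15, 3, 14, 2, 9, 16, 7, 13, 12, 6]

/-- the inverse of `f` -/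
def g : Fin 17 → Fin 17 := ![0, 5, 10, 8, 3, 2, 16, 13, 6, 11, 4, 1, 15, 14, 9, 7, 12]

/-- the inverse of the permutation `d ↦ f d - d` -/
def h : Fin 17 → Fin 17 := ![0, 3, 6, 2, 12, 9, 4, 16, 7, 10, 1, 13, 8, 5, 15, 11, 14]

/-- the operation -/
def op (x y : Fin 17) : Fin 17 := x + f (y - x)

lemma op_left (a b : Fin 17) : op a (a + g (b - a)) = b := by
  revert a b; decide

lemma left_op (a x : Fin 17) : a + g (op a x - a) = x := by
  revert a x; decide

lemma op_right (a b : Fin 17) : op (a - h (b - a)) a = b := by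
  revert a b; decide

lemma right_op (a x : Fin 17) : a - h (op x a - a) = x := by
  revert a x; decide

lemma identity (x y : Fin 17) : op (op x y) y = op x (op x y) := by
  revert x y; decide

/-- There is a quasigroup operation on a set with 17 elements (for all `a, b` each of the equations
`a x = b` and `x a = b` has exactly one solution `x`) which satisfies `(x y) y = x (x y)`. -/
theorem result : ∃ op : Fin 17 → Fin 17 → Fin 17,
    (∀ a b, ∃! x, op a x = b) ∧ (∀ a b, ∃! x, op x a = b) ∧
      ∀ x y, op (op x y) y = op x (op x y) := by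
  refine ⟨op, fun a b => ⟨a + g (b - a), op_left a b, ?_⟩,
    fun a b => ⟨a - h (b - a), op_right a b, ?_⟩, identity⟩
  · intro x hx
    have hx' : op a x = b := hx
    rw [← left_op a x, hx']
  · intro x hx
    have hx' : op x a = b := hx
    rw [← right_op a x, hx']

end Pool.Agent.Results.MP_ab03e0_co.OrderSeventeen
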